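import Pool.Agent.Lib.MP_1df8f0_an.Main

open MeasureTheory
open scoped unitInterval ContDiff

namespace Pool.Agent.Results.MP_1df8f0_an.AnalyticObstruction

open Pool.Agent.Lib.MP_1df8f0_an

/-- For every double sequence `B` there is an invertible ergodic transformation `T` of the unit
interval with zero entropy such that no induced map of `T` is a factor of an induced map of a
volume preserving self-map of a torus whose lift is real-analytic, or smooth with derivatives
bounded by a row of `B`. -/
theorem result (B : ℕ → ℕ → ℝ) :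
    ∃ T : I → I, (∃ T' : I → I, MeasurePreserving T' volume volume ∧
        T' ∘ T =ᵐ[volume] id ∧ T ∘ T' =ᵐ[volume] id) ∧
      Ergodic T volume ∧ ksEntropy volume T = 0 ∧
      ∀ (n : ℕ) (S : Torus n → Torus n) (F : (Fin n → ℝ) → (Fin n → ℝ)),
        MeasurePreserving S volume volume → IsLift S F →
        (AnalyticOnNhd ℝ F Set.univ ∨ (ContDiff ℝ ∞ F ∧
          ∃ j, ∀ r, 1 ≤ r → ∀ x, ‖iteratedFDeriv ℝ r F x‖ ≤ B j r)) →
        ¬ InducedFactor volume T volume S := by
  obtain ⟨T, h1, h2, h3, h4⟩ :=
    main fun j r => max (B j r) ((j : ℝ) ^ (r + 1) * (r.factorial : ℝ))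
  refine ⟨T, h1, h2, h3, fun n S F hS hF h => ?_⟩
  rcases h with h | ⟨h, j, hj⟩
  · obtain ⟨j, hj⟩ := analytic_bound F h
    exact h4 n j S hS ⟨F, h.contDiff, hF, fun r _ x hx => (hj r x hx).trans (le_max_right _ _)⟩
  · exact h4 n j S hS ⟨F, h, hF, fun r hr x _ => (hj r hr x).trans (le_max_left _ _)⟩

end Pool.Agent.Results.MP_1df8f0_an.AnalyticObstruction
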