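import Pool.Agent.Lib.MP_1df8f0_an.K.All

open MeasureTheory
open scoped unitInterval

namespace Pool.Agent.Results.MP_1df8f0_an.NoSmoothModel

open Pool.Agent.Lib.MP_1df8f0_an

/-- There is an invertible ergodic transformation `T` of the unit interval with zero entropy such
that no induced map of `T` is a factor of an induced map of a volume preserving `C²`
diffeomorphism `S` of a torus (`S'` is the inverse of `S`; `F`, `G` are `C²` lifts of `S`, `S'`).
In particular `T` is not Kakutani equivalent to any such diffeomorphism. -/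
theorem result :
    ∃ T : I → I, (∃ T' : I → I, MeasurePreserving T' volume volume ∧
        T' ∘ T =ᵐ[volume] id ∧ T ∘ T' =ᵐ[volume] id) ∧
      Ergodic T volume ∧ ksEntropy volume T = 0 ∧
      ∀ (n : ℕ) (S S' : Torus n → Torus n) (F G : (Fin n → ℝ) → (Fin n → ℝ)),
        MeasurePreserving S volume volume → Function.LeftInverse S' S →
        Function.RightInverse S' S → ContDiff ℝ 2 F → IsLift S F → ContDiff ℝ 2 G → IsLift S' G →
        ¬ InducedFactor volume T volume S := by
  obtain ⟨T, h1, h2, h3, h4⟩ := K.All_thm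
  exact ⟨T, h1, h2, h3, fun n S S' F G a1 a2 a3 a4 a5 a6 a7 =>
    h4 n S ⟨a1, S', F, G, a2, a3, a4, a5, a6, a7⟩⟩

end Pool.Agent.Results.MP_1df8f0_an.NoSmoothModel
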